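import Mathlib

/-!
# The permanent of a uniform random matrix over a finite field of odd order

Vectors are the rows of a matrix.  `P C` is the permanent of the matrix with rows `C k`.
-/

set_option autoImplicit false
set_option linter.unusedSectionVars false

namespace Pool.Agent.L5helper40.PermFq

open Finset Equiv

variable {F : Type} [Field F]

/-- the permanent as a multilinear function of the rows -/
noncomputable def PML (F : Type) [Field F] (n : ℕ) :
    MultilinearMap F (fun _ : Fin n => (Fin n → F)) F :=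
  ∑ σ : Perm (Fin n), (MultilinearMap.mkPiAlgebra F (Fin n) F).compLinearMap
    (fun k => LinearMap.proj (σ k))

/-- the permanent of the matrix with rows `C k` -/
noncomputable def P {n : ℕ} (C : Fin n → Fin n → F) : F := PML F n C

theorem P_eq {n : ℕ} (C : Fin n → Fin n → F) :
    P C = ∑ σ : Perm (Fin n), ∏ k, C k (σ k) := by
  simp [P, PML]

theorem P_eq_permanent {n : ℕ} (A : Matrix (Fin n) (Fin n) F) :
    P (fun k i => A k i) = A.permanent := by
  rw [← Matrix.permanent_transpose]
  exact P_eq _

theorem P_transpose {n : ℕ} (C : Fin n → Fin n → F) : P (fun i k => C k i) = P C := by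
  have h1 := P_eq_permanent (Matrix.of C)
  have h2 := P_eq_permanent (Matrix.of C).transpose
  rw [Matrix.permanent_transpose, ← h1] at h2
  exact h2

theorem P_comp {n : ℕ} (C : Fin n → Fin n → F) (τ : Perm (Fin n)) :
    P (fun k => C (τ k)) = P C := by
  have h := Matrix.permanent_permute_cols τ (Matrix.of C)
  rw [← P_eq_permanent, ← P_eq_permanent] at h
  exact h

theorem P_comp' {n : ℕ} (C : Fin n → Fin n → F) (τ : Perm (Fin n)) :
    P (fun k i => C k (τ i)) = P C := by
  have h := Matrix.permanent_permute_rows τ (Matrix.of C)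
  rw [← P_eq_permanent, ← P_eq_permanent] at h
  exact h

theorem P_update_sub {n : ℕ} (C : Fin n → Fin n → F) (k : Fin n) (u v : Fin n → F) :
    P (Function.update C k (u - v)) = P (Function.update C k u) - P (Function.update C k v) := by
  simp only [P]
  rw [MultilinearMap.map_update_sub]

/-- linear expansion in a row -/
theorem P_update_sum {n : ℕ} (C : Fin n → Fin n → F) (k : Fin n) (u : Fin n → F) :
    P (Function.update C k u) = ∑ i, u i * P (Function.update C k (Pi.single i 1)) := by
  have h : u = ∑ i, u i • (Pi.single i (1 : F) : Fin n → F) := by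
    ext j
    simp [Finset.sum_apply, Pi.single_apply]
  conv_lhs => rw [h]
  simp only [P]
  rw [MultilinearMap.map_update_sum]
  refine Finset.sum_congr rfl fun i _ => ?_
  rw [MultilinearMap.map_update_smul, smul_eq_mul]

theorem P_eq_zero_of_single {n : ℕ} (C : Fin n → Fin n → F) (k l i : Fin n) (hkl : k ≠ l)
    (hk : C k = Pi.single i 1) (hl : C l = Pi.single i 1) : P C = 0 := by
  rw [P_eq]
  refine Finset.sum_eq_zero fun σ _ => ?_
  by_cases h : σ k = i
  · have h2 : σ l ≠ i := fun h3 => hkl (σ.injective (h.trans h3.symm))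
    refine Finset.prod_eq_zero (Finset.mem_univ l) ?_
    rw [hl, Pi.single_eq_of_ne h2]
  · refine Finset.prod_eq_zero (Finset.mem_univ k) ?_
    rw [hk, Pi.single_eq_of_ne h]

/-- Laplace expansion when the first row is the first unit vector -/
theorem P_succ {m : ℕ} (C : Fin (m + 1) → Fin (m + 1) → F) :
    P (Function.update C 0 (Pi.single 0 1)) = P (fun k i => C (Fin.succ k) (Fin.succ i)) := by
  rw [P_eq, P_eq]
  rw [← Equiv.sum_comp (Equiv.Perm.decomposeFin (n := m)).symm]
  rw [Fintype.sum_prod_type]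
  rw [Finset.sum_eq_single (0 : Fin (m + 1))]
  · refine Finset.sum_congr rfl fun σ _ => ?_
    rw [Fin.prod_univ_succ]
    simp
  · intro b _ hb
    refine Finset.sum_eq_zero fun σ _ => ?_
    refine Finset.prod_eq_zero (Finset.mem_univ 0) ?_
    simp [hb]
  · intro h
    exact absurd (Finset.mem_univ _) h

/-! ### Events -/

/-- every matrix which has the same rows as `C` from the row `k` on has zero permanent -/
def Z {n : ℕ} (k : ℕ) (C : Fin n → Fin n → F) : Prop :=
  ∀ W : Fin n → Fin n → F, (∀ j : Fin n, k ≤ j.val → W j = C j) → P W = 0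

theorem Z_zero {n : ℕ} (C : Fin n → Fin n → F) : Z 0 C ↔ P C = 0 := by
  constructor
  · intro h
    exact h C (fun _ _ => rfl)
  · intro h W hW
    have : W = C := funext fun j => hW j (Nat.zero_le _)
    rw [this, h]

theorem Z_succ {n : ℕ} {k : ℕ} {C : Fin n → Fin n → F} (h : Z (k + 1) C) : Z k C :=
  fun W hW => h W (fun j hj => hW j (by omega))

theorem Z_congr {n : ℕ} {k : ℕ} {C D : Fin n → Fin n → F}
    (h : ∀ j : Fin n, k ≤ j.val → C j = D j) : Z k C ↔ Z k D := by
  constructor
  · intro hC W hW
    exact hC W (fun j hj => (hW j hj).trans (h j hj).symm)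
  · intro hC W hW
    exact hC W (fun j hj => (hW j hj).trans (h j hj))

theorem not_Z_of_le {n : ℕ} {k : ℕ} (hk : n ≤ k) (C : Fin n → Fin n → F) : ¬ Z k C := by
  intro h
  have h1 := h (fun i j => (1 : Matrix (Fin n) (Fin n) F) i j) (fun j hj => by
    exact absurd j.isLt (by omega))
  rw [P_eq_permanent, Matrix.permanent_one] at h1
  exact one_ne_zero h1

section fin

variable [Fintype F]

open scoped Classical in
/-- the number of matrices with the property `Z k` -/
noncomputable def N (F : Type) [Field F] [Fintype F] (n k : ℕ) : ℕ :=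
  (Finset.univ.filter fun C : Fin n → Fin n → F => Z k C).card

/-- resampling a row -/
theorem sum_update {n : ℕ} (k : Fin n) (f : (Fin n → Fin n → F) → ℝ) :
    ∑ C : Fin n → Fin n → F, ∑ w : Fin n → F, f (Function.update C k w) =
      (Fintype.card F : ℝ) ^ n * ∑ C, f C := by
  classical
  have h1 : ∑ C : Fin n → Fin n → F, ∑ w : Fin n → F, f (Function.update C k w) =
      ∑ p : (Fin n → Fin n → F) × (Fin n → F), f (Function.update p.1 k p.2) := by
    rw [Fintype.sum_prod_type]
  let e : (Fin n → Fin n → F) × (Fin n → F) ≃ (Fin n → Fin n → F) × (Fin n → F) :=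
    { toFun := fun p => (Function.update p.1 k p.2, p.1 k)
      invFun := fun p => (Function.update p.1 k p.2, p.1 k)
      left_inv := fun p => by simp
      right_inv := fun p => by simp }
  have h2 := Equiv.sum_comp e (fun p => f p.1)
  rw [h1]
  have h3 : ∑ p : (Fin n → Fin n → F) × (Fin n → F), f (Function.update p.1 k p.2) =
      ∑ p, f (e p).1 := rfl
  rw [h3, h2, Fintype.sum_prod_type]
  simp only [Finset.sum_const, Finset.card_univ, Fintype.card_fun, Fintype.card_fin,
    nsmul_eq_mul, Nat.cast_pow]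
  rw [Finset.mul_sum]

/-! ### The function `chi` -/

open scoped Classical in
/-- `q - 1` at zero and `-1` elsewhere -/
noncomputable def chi (t : F) : ℝ := if t = 0 then (Fintype.card F : ℝ) - 1 else -1

theorem chi_zero : chi (0 : F) = (Fintype.card F : ℝ) - 1 := by simp [chi]

theorem two_le_card : (2 : ℝ) ≤ Fintype.card F := by
  have : 1 < Fintype.card F := Fintype.one_lt_card
  exact_mod_cast this

theorem chi_sq_le (t : F) : chi t ^ 2 ≤ ((Fintype.card F : ℝ) - 1) ^ 2 := by
  have h := two_le_card (F := F)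
  unfold chi
  split_ifs
  · exact le_rfl
  · nlinarith

theorem sum_chi : ∑ t : F, chi t = 0 := by
  classical
  unfold chi
  rw [Finset.sum_ite]
  simp only [Finset.sum_const, nsmul_eq_mul]
  have h1 : (Finset.univ.filter fun t : F => t = 0).card = 1 := by
    rw [Finset.card_eq_one]
    exact ⟨0, by ext; simp⟩
  have h2 : (Finset.univ.filter fun t : F => ¬ t = 0).card = Fintype.card F - 1 := by
    have h3 := Finset.card_filter_add_card_filter_not (s := (Finset.univ : Finset F))
      (fun t : F => t = 0)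
    rw [h1, Finset.card_univ] at h3
    omega
  have h4 : 1 ≤ Fintype.card F := Fintype.card_pos
  simp only [h1, h2]
  push_cast [Nat.cast_sub h4]
  ring

theorem sum_chi_add (c a : F) (ha : a ≠ 0) : ∑ t : F, chi (c + t * a) = 0 := by
  have h : Function.Bijective (fun t : F => c + t * a) := by
    constructor
    · intro x y hxy
      simp only [add_right_inj] at hxy
      exact mul_right_cancel₀ ha hxy
    · intro y
      refine ⟨(y - c) / a, ?_⟩
      field_simp
      ring
  rw [h.sum_comp (fun t => chi t)]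
  exact sum_chi

/-- scalar product -/
def dot {n : ℕ} (s t : Fin n → F) : F := ∑ k, s k * t k

theorem dot_add {n : ℕ} (s s' t : Fin n → F) : dot (s + s') t = dot s t + dot s' t := by
  simp [dot, add_mul, Finset.sum_add_distrib]

theorem dot_smul {n : ℕ} (c : F) (s t : Fin n → F) : dot (c • s) t = c * dot s t := by
  simp [dot, Finset.mul_sum, mul_assoc]

theorem sum_chi_dot {n : ℕ} (t : Fin n → F) (ht : t ≠ 0) :
    ∑ w : Fin n → F, chi (dot w t) = 0 := by
  classical
  obtain ⟨k, hk⟩ : ∃ k, t k ≠ 0 := by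
    by_contra h
    push Not at h
    exact ht (funext h)
  have h1 : ∀ c : F, ∑ w : Fin n → F, chi (dot w t) =
      ∑ w : Fin n → F, chi (dot w t + c * t k) := by
    intro c
    rw [← Equiv.sum_comp (Equiv.addRight (c • (Pi.single k (1 : F) : Fin n → F)))]
    refine Finset.sum_congr rfl fun w _ => ?_
    rw [Equiv.coe_addRight, dot_add, dot_smul]
    congr 3
    simp [dot, Pi.single_apply]
  have h2 : (Fintype.card F : ℝ) * ∑ w : Fin n → F, chi (dot w t) = 0 := by
    have h3 : ∑ c : F, ∑ w : Fin n → F, chi (dot w t) = 0 := by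
      rw [Finset.sum_congr rfl fun c _ => h1 c, Finset.sum_comm]
      exact Finset.sum_eq_zero fun w _ => sum_chi_add _ _ hk
    simpa using h3
  have h4 := two_le_card (F := F)
  rcases mul_eq_zero.mp h2 with h5 | h5
  · linarith
  · exact h5

/-- the sum of `chi` over the coordinates -/
noncomputable def X {n : ℕ} (y : Fin n → F) : ℝ := ∑ i, chi (y i)

theorem X_zero {n : ℕ} : X (0 : Fin n → F) = n * ((Fintype.card F : ℝ) - 1) := by
  simp [X, chi_zero]
  ring

/-! ### The key inequality for symmetric matrices with zero diagonal -/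

/-- the matrix-vector product -/
def mv {n : ℕ} (M : Fin n → Fin n → F) (w : Fin n → F) : Fin n → F := fun l => dot w (M l)

theorem mv_add {n : ℕ} (M : Fin n → Fin n → F) (w w' : Fin n → F) :
    mv M (w + w') = mv M w + mv M w' := by
  funext l
  simp [mv, dot_add]

theorem mv_smul {n : ℕ} (M : Fin n → Fin n → F) (c : F) (w : Fin n → F) :
    mv M (c • w) = c • mv M w := by
  funext l
  simp [mv, dot_smul]

theorem mv_single {n : ℕ} (M : Fin n → Fin n → F) (i : Fin n) :
    mv M (Pi.single i 1) = fun l => M l i := by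
  classical
  funext l
  simp [mv, dot, Pi.single_apply]

/-- if a direction `w0` kills one coordinate and not the linear form, the correlation is zero -/
theorem sum_chi_mul {n : ℕ} (M : Fin n → Fin n → F) (a : (Fin n → F) → F)
    (ha : ∀ w w' (c : F), a (w + c • w') = a w + c * a w') (l : Fin n) (w0 : Fin n → F)
    (h1 : mv M w0 l = 0) (h2 : a w0 ≠ 0) :
    ∑ w : Fin n → F, chi (mv M w l) * chi (a w) = 0 := by
  have h3 : ∀ c : F, ∑ w : Fin n → F, chi (mv M w l) * chi (a w) =
      ∑ w : Fin n → F, chi (mv M w l) * chi (a w + c * a w0) := by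
    intro c
    rw [← Equiv.sum_comp (Equiv.addRight (c • w0))]
    refine Finset.sum_congr rfl fun w _ => ?_
    rw [Equiv.coe_addRight, ha, mv_add, mv_smul]
    simp [h1]
  have h4 : (Fintype.card F : ℝ) * ∑ w : Fin n → F, chi (mv M w l) * chi (a w) = 0 := by
    have h5 : ∑ c : F, ∑ w : Fin n → F, chi (mv M w l) * chi (a w) = 0 := by
      rw [Finset.sum_congr rfl fun c _ => h3 c, Finset.sum_comm]
      refine Finset.sum_eq_zero fun w _ => ?_
      rw [← Finset.mul_sum, sum_chi_add _ _ h2, mul_zero]
    simpa using h5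
  have h6 := two_le_card (F := F)
  rcases mul_eq_zero.mp h4 with h5 | h5
  · linarith
  · exact h5

open scoped Classical in
theorem key_sym {n : ℕ} (h2 : (2 : F) ≠ 0) (M : Fin n → Fin n → F)
    (hsym : ∀ i j, M i j = M j i) (hdiag : ∀ i, M i i = 0) (hM : M ≠ 0) :
    ((Finset.univ.filter fun w : Fin n → F => mv M w = 0).card : ℝ) ^ 2 *
        ((n : ℝ) * ((Fintype.card F : ℝ) - 1)) ^ 2 ≤
      (Fintype.card F : ℝ) ^ n * ∑ w : Fin n → F, if mv M w = 0 then 0 else X (mv M w) ^ 2 := by
  obtain ⟨i, j, hij⟩ : ∃ i j, M i j ≠ 0 := by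
    by_contra h
    push Not at h
    exact hM (funext fun i => funext fun j => h i j)
  set q : ℝ := (Fintype.card F : ℝ) with hq
  have hq2 : (2 : ℝ) ≤ q := two_le_card (F := F)
  -- the linear form
  let a : (Fin n → F) → F := fun w => mv M w i + mv M w j
  have ha : ∀ w w' (c : F), a (w + c • w') = a w + c * a w' := by
    intro w w' c
    simp only [a, mv_add, mv_smul, Pi.add_apply, Pi.smul_apply, smul_eq_mul]
    ring
  have hl : ∀ l, ∑ w : Fin n → F, chi (mv M w l) * chi (a w) = 0 := by
    intro l
    by_cases hc : M l i + M l j = 0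
    · refine sum_chi_mul M a ha l (Pi.single i 1 + Pi.single j 1) ?_ ?_
      · rw [mv_add, mv_single, mv_single]
        exact hc
      · simp only [a]
        rw [mv_add, mv_single, mv_single]
        simp only [Pi.add_apply, hdiag]
        rw [hsym j i]
        intro h
        have : (2 : F) * M i j = 0 := by
          rw [← h]; ring
        rcases mul_eq_zero.mp this with h' | h'
        · exact h2 h'
        · exact hij h'
    · refine sum_chi_mul M a ha l (Pi.single l 1) ?_ ?_
      · rw [mv_single]
        exact hdiag l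
      · simp only [a]
        rw [mv_single]
        simp only
        rw [hsym i l, hsym j l]
        exact hc
  have hsum : ∑ w : Fin n → F, X (mv M w) * chi (a w) = 0 := by
    simp only [X, Finset.sum_mul]
    rw [Finset.sum_comm]
    exact Finset.sum_eq_zero fun l _ => hl l
  -- split
  set K : ℝ := ((Finset.univ.filter fun w : Fin n → F => mv M w = 0).card : ℝ) with hK
  have hsplit : ∑ w : Fin n → F, X (mv M w) * chi (a w) =
      K * (n * (q - 1) * (q - 1)) +
        ∑ w : Fin n → F, (if mv M w = 0 then 0 else X (mv M w)) * chi (a w) := by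
    have h3 : ∀ w : Fin n → F, X (mv M w) * chi (a w) =
        (if mv M w = 0 then n * (q - 1) * (q - 1) else 0) +
          (if mv M w = 0 then 0 else X (mv M w)) * chi (a w) := by
      intro w
      split_ifs with h
      · have : a w = 0 := by simp [a, h]
        rw [this, h, X_zero, chi_zero]
        ring
      · ring
    rw [Finset.sum_congr rfl fun w _ => h3 w, Finset.sum_add_distrib]
    congr 1
    rw [← Finset.sum_filter, Finset.sum_const, nsmul_eq_mul]
  rw [hsum] at hsplit
  have hCS := Finset.sum_mul_sq_le_sq_mul_sq Finset.univ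
    (fun w : Fin n → F => if mv M w = 0 then 0 else X (mv M w)) (fun w => chi (a w))
  have hchi : ∑ w : Fin n → F, chi (a w) ^ 2 ≤ q ^ n * (q - 1) ^ 2 := by
    calc ∑ w : Fin n → F, chi (a w) ^ 2 ≤ ∑ _w : Fin n → F, (q - 1) ^ 2 :=
          Finset.sum_le_sum fun w _ => chi_sq_le _
      _ = q ^ n * (q - 1) ^ 2 := by
          simp [hq]
  have hS : ∑ w : Fin n → F, (if mv M w = 0 then 0 else X (mv M w)) ^ 2 =
      ∑ w : Fin n → F, if mv M w = 0 then 0 else X (mv M w) ^ 2 := by
    refine Finset.sum_congr rfl fun w _ => ?_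
    split_ifs <;> simp
  rw [hS] at hCS
  set S : ℝ := ∑ w : Fin n → F, if mv M w = 0 then 0 else X (mv M w) ^ 2 with hSdef
  have hS0 : 0 ≤ S := Finset.sum_nonneg fun w _ => by split_ifs <;> positivity
  have h5 : (K * (n * (q - 1) * (q - 1))) ^ 2 ≤ S * (q ^ n * (q - 1) ^ 2) := by
    have h6 : ∑ w : Fin n → F, (if mv M w = 0 then 0 else X (mv M w)) * chi (a w) =
        - (K * (n * (q - 1) * (q - 1))) := by linarith
    rw [h6, neg_sq] at hCS
    exact hCS.trans (mul_le_mul_of_nonneg_left hchi hS0)
  have h7 : 0 < (q - 1) ^ 2 := by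
    have : 0 < q - 1 := by linarith
    positivity
  have h8 : (K ^ 2 * (n * (q - 1)) ^ 2) * (q - 1) ^ 2 ≤ (q ^ n * S) * (q - 1) ^ 2 := by
    calc (K ^ 2 * (n * (q - 1)) ^ 2) * (q - 1) ^ 2 = (K * (n * (q - 1) * (q - 1))) ^ 2 := by ring
      _ ≤ S * (q ^ n * (q - 1) ^ 2) := h5
      _ = (q ^ n * S) * (q - 1) ^ 2 := by ring
  exact le_of_mul_le_mul_right h8 h7

/-! ### The vector of the subpermanents -/

/-- the coefficients of the permanent as a linear form in the first row -/
noncomputable def T {m : ℕ} (C : Fin (m + 1) → Fin (m + 1) → F) : Fin (m + 1) → F :=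
  fun i => P (Function.update C 0 (Pi.single i 1))

theorem P_update_T {m : ℕ} (C : Fin (m + 1) → Fin (m + 1) → F) (w : Fin (m + 1) → F) :
    P (Function.update C 0 w) = dot w (T C) := P_update_sum C 0 w

theorem P_eq_dot_T {m : ℕ} (C : Fin (m + 1) → Fin (m + 1) → F) : P C = dot (C 0) (T C) := by
  rw [← P_update_T, Function.update_eq_self]

theorem T_update {m : ℕ} (C : Fin (m + 1) → Fin (m + 1) → F) (w : Fin (m + 1) → F) :
    T (Function.update C 0 w) = T C := by
  funext i
  simp [T]

theorem Z_one_iff {m : ℕ} (C : Fin (m + 1) → Fin (m + 1) → F) : Z 1 C ↔ T C = 0 := by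
  constructor
  · intro h
    funext i
    refine h _ fun j hj => ?_
    rw [Function.update_of_ne]
    intro h0
    rw [h0] at hj
    simp at hj
  · intro h W hW
    have h1 : W = Function.update C 0 (W 0) := by
      funext j
      by_cases hj : j = 0
      · rw [hj, Function.update_self]
      · rw [Function.update_of_ne hj]
        refine hW j ?_
        have := Fin.val_ne_zero_iff.mpr hj
        omega
    rw [h1, P_update_T, h]
    simp [dot]

theorem T_comp {m : ℕ} (C : Fin (m + 1) → Fin (m + 1) → F) (τ : Perm (Fin (m + 1)))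
    (i : Fin (m + 1)) : T (fun k l => C k (τ l)) i = T C (τ i) := by
  unfold T
  rw [← P_comp' (Function.update C 0 (Pi.single (τ i) 1)) τ]
  congr 1
  funext k l
  by_cases hk : k = 0
  · subst hk
    simp [Pi.single_apply]
  · simp [Function.update_of_ne hk]

theorem exists_perm {m : ℕ} (i j : Fin (m + 2)) (hij : i ≠ j) :
    ∃ τ : Perm (Fin (m + 2)), τ 0 = i ∧ τ 1 = j := by
  refine ⟨Equiv.swap 0 i * Equiv.swap 1 (Equiv.swap 0 i j), ?_, ?_⟩
  · rw [Equiv.Perm.mul_apply]
    have h : Equiv.swap 0 i j ≠ 0 := by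
      intro h
      have h1 : Equiv.swap 0 i (Equiv.swap 0 i j) = j := Equiv.swap_apply_self _ _ _
      rw [h, Equiv.swap_apply_left] at h1
      exact hij h1
    rw [Equiv.swap_apply_of_ne_of_ne (by simp) h.symm, Equiv.swap_apply_left]
  · rw [Equiv.Perm.mul_apply, Equiv.swap_apply_left, Equiv.swap_apply_self]

/-- splitting a matrix -/
def splitE (F : Type) (m : ℕ) : (Fin (m + 1) → Fin (m + 1) → F) ≃
    (Fin (m + 1) → F) × (Fin m → F) × (Fin m → Fin m → F) where
  toFun C := (C 0, fun k => C k.succ 0, fun i k => C k.succ i.succ)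
  invFun p := Fin.cons p.1 (fun k => Fin.cons (p.2.1 k) (fun i => p.2.2 i k))
  left_inv C := by
    funext k l
    refine Fin.cases ?_ (fun k => ?_) k
    · rfl
    · refine Fin.cases ?_ (fun l => ?_) l
      · rfl
      · rfl
  right_inv p := by
    rcases p with ⟨a, s, B⟩
    rfl

theorem T_zero_eq {m : ℕ} (C : Fin (m + 2) → Fin (m + 2) → F) :
    T C 0 = dot (fun k : Fin (m + 1) => C k.succ 1) (T (fun i k => C k.succ i.succ)) := by
  unfold T
  rw [P_succ, ← P_transpose, P_eq_dot_T]
  rfl

theorem T_one_eq {m : ℕ} (C : Fin (m + 2) → Fin (m + 2) → F) :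
    T C 1 = dot (fun k : Fin (m + 1) => C k.succ 0) (T (fun i k => C k.succ i.succ)) := by
  have h1 := T_comp C (Equiv.swap 0 1) 0
  rw [Equiv.swap_apply_left] at h1
  rw [← h1, T_zero_eq]
  have h2 : (fun (i k : Fin (m + 1)) => C k.succ (Equiv.swap 0 1 i.succ)) =
      Function.update (fun (i k : Fin (m + 1)) => C k.succ i.succ) 0 (fun k => C k.succ 0) := by
    funext i k
    refine Fin.cases ?_ (fun i => ?_) i
    · simp
    · rw [Function.update_of_ne (Fin.succ_ne_zero i), Equiv.swap_apply_of_ne_of_ne]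
      · exact Fin.succ_ne_zero _
      · intro h
        have := congrArg Fin.val h
        simp at this
  rw [h2, T_update]
  simp

theorem sum_T_zero_one {m : ℕ} :
    (Fintype.card F : ℝ) ^ (m + 1) *
      ∑ C : Fin (m + 2) → Fin (m + 2) → F, chi (T C 0) * chi (T C 1) =
    (Fintype.card F : ℝ) ^ (m + 2) * (N F (m + 1) 1 *
      ((Fintype.card F : ℝ) ^ (m + 1) * ((Fintype.card F : ℝ) - 1)) ^ 2) := by
  classical
  set q : ℝ := (Fintype.card F : ℝ) with hq
  have h1 : ∑ C : Fin (m + 2) → Fin (m + 2) → F, chi (T C 0) * chi (T C 1) =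
      q ^ (m + 2) * ∑ B : Fin (m + 1) → Fin (m + 1) → F, (chi (dot (B 0) (T B)) *
        ∑ s : Fin (m + 1) → F, chi (dot s (T B))) := by
    have h2 : ∀ C : Fin (m + 2) → Fin (m + 2) → F, chi (T C 0) * chi (T C 1) =
        (fun p : (Fin (m + 2) → F) × (Fin (m + 1) → F) × (Fin (m + 1) → Fin (m + 1) → F) =>
          chi (dot (p.2.2 0) (T p.2.2)) * chi (dot p.2.1 (T p.2.2))) (splitE F (m + 1) C) := by
      intro C
      rw [T_zero_eq, T_one_eq]
      rfl
    rw [Finset.sum_congr rfl fun C _ => h2 C]
    refine (Equiv.sum_comp (splitE F (m + 1))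
      (fun p : (Fin (m + 2) → F) × (Fin (m + 1) → F) × (Fin (m + 1) → Fin (m + 1) → F) =>
          chi (dot (p.2.2 0) (T p.2.2)) * chi (dot p.2.1 (T p.2.2)))).trans ?_
    rw [Fintype.sum_prod_type]
    simp only [Finset.sum_const, Finset.card_univ, Fintype.card_fun, Fintype.card_fin,
      nsmul_eq_mul, Nat.cast_pow]
    rw [← hq, Fintype.sum_prod_type, Finset.sum_comm]
    congr 1
    refine Finset.sum_congr rfl fun B _ => ?_
    rw [Finset.mul_sum]
  have h3 := sum_update (F := F) (n := m + 1) 0 (fun B => chi (dot (B 0) (T B)) *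
        ∑ s : Fin (m + 1) → F, chi (dot s (T B)))
  simp only [T_update, Function.update_self] at h3
  have h4 : ∑ B : Fin (m + 1) → Fin (m + 1) → F, ∑ w : Fin (m + 1) → F,
      (chi (dot w (T B)) * ∑ s : Fin (m + 1) → F, chi (dot s (T B))) =
      N F (m + 1) 1 * (q ^ (m + 1) * (q - 1)) ^ 2 := by
    have h5 : ∀ B : Fin (m + 1) → Fin (m + 1) → F, ∑ w : Fin (m + 1) → F,
      (chi (dot w (T B)) * ∑ s : Fin (m + 1) → F, chi (dot s (T B))) =
        if Z 1 B then (q ^ (m + 1) * (q - 1)) ^ 2 else 0 := by
      intro B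
      rw [← Finset.sum_mul, ← sq]
      split_ifs with h
      · rw [Z_one_iff] at h
        congr 1
        rw [h]
        simp [dot, chi_zero, hq]
        ring
      · rw [Z_one_iff] at h
        rw [sum_chi_dot _ h]
        simp
    rw [Finset.sum_congr rfl fun B _ => h5 B, ← Finset.sum_filter, Finset.sum_const,
      nsmul_eq_mul]
    rfl
  rw [h1, mul_left_comm, ← h3, h4]

/-- the probability of `Z k` -/
noncomputable def p (F : Type) [Field F] [Fintype F] (n k : ℕ) : ℝ :=
  (N F n k : ℝ) / (Fintype.card F : ℝ) ^ (n * n)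

theorem N_eq (n k : ℕ) : (N F n k : ℝ) = (Fintype.card F : ℝ) ^ (n * n) * p F n k := by
  have h := two_le_card (F := F)
  have h1 : (Fintype.card F : ℝ) ^ (n * n) ≠ 0 := by positivity
  rw [p]
  field_simp

theorem card_mat (n : ℕ) : (Fintype.card (Fin n → Fin n → F) : ℝ) =
    (Fintype.card F : ℝ) ^ (n * n) := by
  classical
  rw [Fintype.card_fun, Fintype.card_fun, Fintype.card_fin, ← pow_mul]
  push_cast
  rfl

theorem sum_T_pair {m : ℕ} (i j : Fin (m + 2)) (hij : i ≠ j) :
    ∑ C : Fin (m + 2) → Fin (m + 2) → F, chi (T C i) * chi (T C j) =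
    (Fintype.card F : ℝ) ^ ((m + 2) * (m + 2)) *
      (((Fintype.card F : ℝ) - 1) ^ 2 * p F (m + 1) 1) := by
  classical
  obtain ⟨τ, h0, h1⟩ := exists_perm i j hij
  let e : (Fin (m + 2) → Fin (m + 2) → F) ≃ (Fin (m + 2) → Fin (m + 2) → F) :=
    { toFun := fun C => fun k l => C k (τ l)
      invFun := fun C => fun k l => C k (τ.symm l)
      left_inv := fun C => by funext k l; simp
      right_inv := fun C => by funext k l; simp }
  have h2 : ∑ C : Fin (m + 2) → Fin (m + 2) → F, chi (T C i) * chi (T C j) =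
      ∑ C : Fin (m + 2) → Fin (m + 2) → F, chi (T C 0) * chi (T C 1) := by
    rw [← Equiv.sum_comp e (fun C => chi (T C 0) * chi (T C 1))]
    refine Finset.sum_congr rfl fun C _ => ?_
    have h3 : ∀ l, T (e C) l = T C (τ l) := fun l => T_comp C τ l
    rw [h3, h3, h0, h1]
  rw [h2]
  have h4 := sum_T_zero_one (F := F) (m := m)
  rw [N_eq] at h4
  set q : ℝ := (Fintype.card F : ℝ) with hq
  have hq2 : (2 : ℝ) ≤ q := two_le_card (F := F)
  have h5 : q ^ (m + 1) ≠ 0 := by positivity
  apply mul_left_cancel₀ h5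
  rw [h4]
  have h6 : (m + 2) * (m + 2) = (m + 1) * (m + 1) + (m + 1) + (m + 2) := by ring
  rw [h6, pow_add, pow_add]
  ring

theorem sum_X_sq {m : ℕ} :
    ∑ C : Fin (m + 2) → Fin (m + 2) → F, X (T C) ^ 2 ≤
    (Fintype.card F : ℝ) ^ ((m + 2) * (m + 2)) * (((Fintype.card F : ℝ) - 1) ^ 2 *
      ((m + 2 : ℝ) + (m + 2) ^ 2 * p F (m + 1) 1)) := by
  classical
  set q : ℝ := (Fintype.card F : ℝ) with hq
  have hq2 : (2 : ℝ) ≤ q := two_le_card (F := F)
  have hp : 0 ≤ p F (m + 1) 1 := by
    unfold p
    positivity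
  have h1 : ∀ C : Fin (m + 2) → Fin (m + 2) → F, X (T C) ^ 2 =
      ∑ i, ∑ j, chi (T C i) * chi (T C j) := by
    intro C
    rw [sq, X, Finset.sum_mul_sum]
  rw [Finset.sum_congr rfl fun C _ => h1 C, Finset.sum_comm]
  have h2 : ∀ i : Fin (m + 2), ∑ C : Fin (m + 2) → Fin (m + 2) → F,
      ∑ j, chi (T C i) * chi (T C j) ≤
        q ^ ((m + 2) * (m + 2)) * ((q - 1) ^ 2 * (1 + (m + 2) * p F (m + 1) 1)) := by
    intro i
    rw [Finset.sum_comm]
    have h3 : ∀ j : Fin (m + 2), ∑ C : Fin (m + 2) → Fin (m + 2) → F,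
        chi (T C i) * chi (T C j) ≤
        (if j = i then q ^ ((m + 2) * (m + 2)) * (q - 1) ^ 2 else 0) +
          q ^ ((m + 2) * (m + 2)) * ((q - 1) ^ 2 * p F (m + 1) 1) := by
      intro j
      by_cases hj : j = i
      · subst hj
        rw [if_pos rfl]
        have h4 : ∑ C : Fin (m + 2) → Fin (m + 2) → F, chi (T C j) * chi (T C j) ≤
            q ^ ((m + 2) * (m + 2)) * (q - 1) ^ 2 := by
          calc ∑ C : Fin (m + 2) → Fin (m + 2) → F, chi (T C j) * chi (T C j)
              ≤ ∑ _C : Fin (m + 2) → Fin (m + 2) → F, (q - 1) ^ 2 :=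
                Finset.sum_le_sum fun C _ => by
                  rw [← sq]
                  exact chi_sq_le _
            _ = q ^ ((m + 2) * (m + 2)) * (q - 1) ^ 2 := by
                rw [Finset.sum_const, Finset.card_univ, nsmul_eq_mul, card_mat]
        have h5 : 0 ≤ q ^ ((m + 2) * (m + 2)) * ((q - 1) ^ 2 * p F (m + 1) 1) := by positivity
        linarith
      · rw [if_neg hj, zero_add, sum_T_pair i j (fun h => hj h.symm)]
    refine (Finset.sum_le_sum fun j _ => h3 j).trans (le_of_eq ?_)
    rw [Finset.sum_add_distrib, Finset.sum_ite_eq' Finset.univ i, if_pos (Finset.mem_univ _),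
      Finset.sum_const, Finset.card_univ, Fintype.card_fin, nsmul_eq_mul]
    push_cast
    ring
  refine (Finset.sum_le_sum fun i _ => h2 i).trans (le_of_eq ?_)
  rw [Finset.sum_const, Finset.card_univ, Fintype.card_fin, nsmul_eq_mul]
  push_cast
  ring

/-! ### The matrix of the subpermanents of corank two -/

/-- the symmetric matrix of the coefficients of the permanent in the first two rows -/
noncomputable def MM {m : ℕ} (C : Fin (m + 2) → Fin (m + 2) → F) :
    Fin (m + 2) → Fin (m + 2) → F :=
  fun i j => P (Function.update (Function.update C 1 (Pi.single j 1)) 0 (Pi.single i 1))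

theorem MM_symm {m : ℕ} (C : Fin (m + 2) → Fin (m + 2) → F) (i j : Fin (m + 2)) :
    MM C i j = MM C j i := by
  unfold MM
  rw [← P_comp _ (Equiv.swap 0 1)]
  congr 1
  funext k
  by_cases h0 : k = 0
  · subst h0
    simp
  · by_cases h1 : k = 1
    · subst h1
      simp
    · rw [Equiv.swap_apply_of_ne_of_ne h0 h1]
      simp [Function.update_of_ne h0, Function.update_of_ne h1]

theorem MM_diag {m : ℕ} (C : Fin (m + 2) → Fin (m + 2) → F) (i : Fin (m + 2)) :
    MM C i i = 0 := by
  refine P_eq_zero_of_single _ 0 1 i (by simp) (by simp) ?_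
  rw [Function.update_of_ne (by simp), Function.update_self]

theorem T_update_one {m : ℕ} (C : Fin (m + 2) → Fin (m + 2) → F) (w : Fin (m + 2) → F) :
    T (Function.update C 1 w) = mv (MM C) w := by
  funext i
  unfold T mv dot MM
  rw [Function.update_comm (by simp), P_update_sum]
  refine Finset.sum_congr rfl fun j _ => ?_
  rw [Function.update_comm (by simp)]

theorem MM_ne_zero {m : ℕ} (C : Fin (m + 2) → Fin (m + 2) → F) (h : ¬ Z 2 C) : MM C ≠ 0 := by
  intro h0
  apply h
  intro W hW
  have h1 : W = Function.update (Function.update C 1 (W 1)) 0 (W 0) := by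
    funext j
    by_cases hj : j = 0
    · rw [hj, Function.update_self]
    · rw [Function.update_of_ne hj]
      by_cases hj1 : j = 1
      · rw [hj1, Function.update_self]
      · rw [Function.update_of_ne hj1]
        refine hW j ?_
        have h2 := Fin.val_ne_zero_iff.mpr hj
        have h3 : j.val ≠ 1 := by
          intro h4
          apply hj1
          ext
          simp [h4]
        omega
  rw [h1, P_update_T, T_update_one, h0]
  simp [dot, mv]

open scoped Classical in
/-- the number of matrices with `Z k` and not `Z (k + 1)` -/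
noncomputable def D (F : Type) [Field F] [Fintype F] (n k : ℕ) : ℝ :=
  ∑ C : Fin n → Fin n → F, if Z k C ∧ ¬ Z (k + 1) C then 1 else 0

theorem D_eq (n k : ℕ) : D F n k = N F n k - N F n (k + 1) := by
  classical
  have h1 : D F n k = ((Finset.univ.filter
      fun C : Fin n → Fin n → F => Z k C ∧ ¬ Z (k + 1) C).card : ℝ) := by
    rw [D, ← Finset.sum_filter, Finset.sum_const, nsmul_eq_mul, mul_one]
  have h2 : (Finset.univ.filter fun C : Fin n → Fin n → F => Z k C ∧ ¬ Z (k + 1) C) =
      (Finset.univ.filter fun C : Fin n → Fin n → F => Z k C) \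
        (Finset.univ.filter fun C : Fin n → Fin n → F => Z (k + 1) C) := by
    ext C
    simp
  have h3 : (Finset.univ.filter fun C : Fin n → Fin n → F => Z (k + 1) C) ⊆
      (Finset.univ.filter fun C : Fin n → Fin n → F => Z k C) := by
    intro C
    simp only [Finset.mem_filter, Finset.mem_univ, true_and]
    exact Z_succ
  rw [h1, h2, Finset.cast_card_sdiff h3]
  rfl

theorem main_count {m : ℕ} (h2 : (2 : F) ≠ 0) :
    D F (m + 2) 1 ^ 2 * (((m : ℝ) + 2) * ((Fintype.card F : ℝ) - 1)) ^ 2 ≤
      (Fintype.card F : ℝ) ^ ((m + 2) * (m + 2)) *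
        (∑ C : Fin (m + 2) → Fin (m + 2) → F, X (T C) ^ 2 -
          N F (m + 2) 1 * (((m : ℝ) + 2) * ((Fintype.card F : ℝ) - 1)) ^ 2) := by
  classical
  set q : ℝ := (Fintype.card F : ℝ) with hq
  have hq2 : (2 : ℝ) ≤ q := two_le_card (F := F)
  set n := m + 2 with hn
  let K : (Fin n → Fin n → F) → ℝ :=
    fun C => ((Finset.univ.filter fun w : Fin n → F => mv (MM C) w = 0).card : ℝ)
  let G : (Fin n → Fin n → F) → ℝ := fun C => if T C = 0 then 0 else X (T C) ^ 2
  have hnm : (n : ℝ) = (m : ℝ) + 2 := by rw [hn]; push_cast; ring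
  -- (a), (b)
  have hb : (∑ C : Fin n → Fin n → F, (if Z 2 C then 0 else K C) ^ 2) * ((n : ℝ) * (q - 1)) ^ 2 ≤
      q ^ n * (q ^ n * ∑ C : Fin n → Fin n → F, G C) := by
    rw [← sum_update 1 G, Finset.sum_mul, Finset.mul_sum]
    refine Finset.sum_le_sum fun C _ => ?_
    have h3 : ∑ w : Fin n → F, G (Function.update C 1 w) =
        ∑ w : Fin n → F, if mv (MM C) w = 0 then 0 else X (mv (MM C) w) ^ 2 := by
      refine Finset.sum_congr rfl fun w _ => ?_
      simp only [G]
      rw [T_update_one]
    rw [h3]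
    split_ifs with hC
    · have h4 : 0 ≤ ∑ w : Fin n → F, if mv (MM C) w = 0 then 0 else X (mv (MM C) w) ^ 2 :=
        Finset.sum_nonneg fun w _ => by split_ifs <;> positivity
      have : (0 : ℝ) ^ 2 * (↑n * (q - 1)) ^ 2 = 0 := by ring
      rw [this]
      positivity
    · exact key_sym h2 (MM C) (MM_symm C) (MM_diag C) (MM_ne_zero C hC)
  -- (c)
  have hc : ∑ C : Fin n → Fin n → F, G C = ∑ C : Fin n → Fin n → F, X (T C) ^ 2 -
      N F n 1 * ((n : ℝ) * (q - 1)) ^ 2 := by
    have h3 : ∀ C : Fin n → Fin n → F, G C = X (T C) ^ 2 -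
        (if Z 1 C then ((n : ℝ) * (q - 1)) ^ 2 else 0) := by
      intro C
      simp only [G]
      by_cases h : T C = 0
      · rw [if_pos h, if_pos ((Z_one_iff C).mpr h), h, X_zero]
        ring
      · rw [if_neg h, if_neg (fun h' => h ((Z_one_iff C).mp h'))]
        ring
    rw [Finset.sum_congr rfl fun C _ => h3 C, Finset.sum_sub_distrib]
    congr 1
    rw [← Finset.sum_filter, Finset.sum_const, nsmul_eq_mul]
    rfl
  -- (d)
  have hd : q ^ n * D F n 1 = ∑ C : Fin n → Fin n → F, (if Z 2 C then 0 else K C) := by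
    rw [D, ← sum_update 1]
    refine Finset.sum_congr rfl fun C _ => ?_
    have h3 : ∀ w : Fin n → F, (if Z 1 (Function.update C 1 w) ∧ ¬ Z (1 + 1) (Function.update C 1 w)
        then (1 : ℝ) else 0) = if Z 2 C then 0 else (if mv (MM C) w = 0 then 1 else 0) := by
      intro w
      have h4 : Z 2 (Function.update C 1 w) ↔ Z 2 C := Z_congr fun j hj => by
        rw [Function.update_of_ne]
        intro h
        rw [h] at hj
        have h8 : ((1 : Fin (m + 2)) : ℕ) = 1 := by simp
        change 2 ≤ ((1 : Fin (m + 2)) : ℕ) at hj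
        omega
      have h5 : Z 1 (Function.update C 1 w) ↔ mv (MM C) w = 0 := by
        rw [Z_one_iff, T_update_one]
      rw [show (1 + 1 : ℕ) = 2 from rfl, h4, h5]
      by_cases h6 : Z 2 C
      · simp [h6]
      · simp [h6]
    rw [Finset.sum_congr rfl fun w _ => h3 w]
    split_ifs with h6
    · simp
    · rw [← Finset.sum_filter, Finset.sum_const, nsmul_eq_mul, mul_one]
  -- (e)
  have he : (∑ C : Fin n → Fin n → F, (if Z 2 C then 0 else K C)) ^ 2 ≤
      q ^ (n * n) * ∑ C : Fin n → Fin n → F, (if Z 2 C then 0 else K C) ^ 2 := by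
    have h3 := sq_sum_le_card_mul_sum_sq (s := (Finset.univ : Finset (Fin n → Fin n → F)))
      (f := fun C => if Z 2 C then 0 else K C)
    rw [Finset.card_univ, card_mat] at h3
    exact h3
  rw [← hd] at he
  rw [← hnm, ← hc]
  have hqn : 0 < q ^ n := by positivity
  have h7 : (q ^ n) ^ 2 * (D F n 1 ^ 2 * ((n : ℝ) * (q - 1)) ^ 2) ≤
      (q ^ n) ^ 2 * (q ^ (n * n) * ∑ C : Fin n → Fin n → F, G C) := by
    calc (q ^ n) ^ 2 * (D F n 1 ^ 2 * ((n : ℝ) * (q - 1)) ^ 2)
        = (q ^ n * D F n 1) ^ 2 * ((n : ℝ) * (q - 1)) ^ 2 := by ring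
      _ ≤ (q ^ (n * n) * ∑ C : Fin n → Fin n → F, (if Z 2 C then 0 else K C) ^ 2) *
          ((n : ℝ) * (q - 1)) ^ 2 := mul_le_mul_of_nonneg_right he (by positivity)
      _ = q ^ (n * n) * ((∑ C : Fin n → Fin n → F, (if Z 2 C then 0 else K C) ^ 2) *
          ((n : ℝ) * (q - 1)) ^ 2) := by ring
      _ ≤ q ^ (n * n) * (q ^ n * (q ^ n * ∑ C : Fin n → Fin n → F, G C)) :=
          mul_le_mul_of_nonneg_left hb (by positivity)
      _ = (q ^ n) ^ 2 * (q ^ (n * n) * ∑ C : Fin n → Fin n → F, G C) := by ring
  exact le_of_mul_le_mul_left h7 (by positivity)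

theorem D_eq_p (n k : ℕ) : D F n k = (Fintype.card F : ℝ) ^ (n * n) * (p F n k - p F n (k + 1)) := by
  rw [D_eq, N_eq, N_eq]
  ring

theorem main_ineq {m : ℕ} (h2 : (2 : F) ≠ 0) :
    (p F (m + 2) 1 - p F (m + 2) 2) ^ 2 ≤
      p F (m + 1) 1 - p F (m + 2) 1 + 1 / ((m : ℝ) + 2) := by
  have h := main_count (F := F) (m := m) h2
  have hX := sum_X_sq (F := F) (m := m)
  rw [D_eq_p, N_eq] at h
  set q : ℝ := (Fintype.card F : ℝ) with hq
  have hq2 : (2 : ℝ) ≤ q := two_le_card (F := F)
  set Q : ℝ := q ^ ((m + 2) * (m + 2)) with hQ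
  have hQ0 : 0 < Q := by positivity
  have hm : (0 : ℝ) < (m : ℝ) + 2 := by positivity
  have hq1 : 0 < q - 1 := by linarith
  have h3 : (Q * (p F (m + 2) 1 - p F (m + 2) 2)) ^ 2 * (((m : ℝ) + 2) * (q - 1)) ^ 2 ≤
      Q * (Q * ((q - 1) ^ 2 * ((m + 2 : ℝ) + (m + 2) ^ 2 * p F (m + 1) 1)) -
        Q * p F (m + 2) 1 * (((m : ℝ) + 2) * (q - 1)) ^ 2) := by
    refine h.trans (mul_le_mul_of_nonneg_left ?_ hQ0.le)
    linarith
  have h4 : (Q ^ 2 * (((m : ℝ) + 2) * (q - 1)) ^ 2) * (p F (m + 2) 1 - p F (m + 2) 2) ^ 2 ≤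
      (Q ^ 2 * (((m : ℝ) + 2) * (q - 1)) ^ 2) *
        (p F (m + 1) 1 - p F (m + 2) 1 + 1 / ((m : ℝ) + 2)) := by
    calc (Q ^ 2 * (((m : ℝ) + 2) * (q - 1)) ^ 2) * (p F (m + 2) 1 - p F (m + 2) 2) ^ 2
        = (Q * (p F (m + 2) 1 - p F (m + 2) 2)) ^ 2 * (((m : ℝ) + 2) * (q - 1)) ^ 2 := by ring
      _ ≤ _ := h3
      _ = _ := by
        field_simp
        ring
  exact le_of_mul_le_mul_left h4 (by positivity)

/-! ### Higher coranks -/

/-- the rows from `0` to `t - 1` can be taken to be unit vectors -/
theorem exists_units {n : ℕ} (k : ℕ) (C : Fin n → Fin n → F) (h : ¬ Z (k + 1) C) (t : ℕ)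
    (ht : t ≤ k + 1) : ∃ W : Fin n → Fin n → F, (∀ j : Fin n, k + 1 ≤ j.val → W j = C j) ∧
      P W ≠ 0 ∧ ∀ j : Fin n, j.val < t → ∃ i, W j = Pi.single i 1 := by
  induction t with
  | zero =>
    unfold Z at h
    push Not at h
    obtain ⟨W, hW, hP⟩ := h
    exact ⟨W, hW, hP, fun j hj => absurd hj (Nat.not_lt_zero _)⟩
  | succ t ih =>
    obtain ⟨W, hW, hP, hu⟩ := ih (by omega)
    by_cases htn : t < n
    · rw [← Function.update_eq_self (⟨t, htn⟩ : Fin n) W, P_update_sum] at hP
      obtain ⟨i, _, hi⟩ := Finset.exists_ne_zero_of_sum_ne_zero hP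
      refine ⟨Function.update W ⟨t, htn⟩ (Pi.single i 1), ?_, right_ne_zero_of_mul hi, ?_⟩
      · intro j hj
        rw [Function.update_of_ne]
        · exact hW j hj
        · intro h'
          rw [h'] at hj
          simp only at hj
          omega
      · intro j hj
        by_cases hjt : j = ⟨t, htn⟩
        · refine ⟨i, ?_⟩
          rw [hjt, Function.update_self]
        · rw [Function.update_of_ne hjt]
          refine hu j ?_
          have : j.val ≠ t := fun h' => hjt (Fin.ext h')
          omega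
    · refine ⟨W, hW, hP, fun j hj => hu j ?_⟩
      have := j.isLt
      omega

/-- a nonzero vector supported on the coordinates of the unit vectors does not give a matrix
with `Z k` -/
theorem not_Z_of_support {n : ℕ} (k : Fin n) (C W : Fin n → Fin n → F)
    (hW : ∀ j : Fin n, k.val + 1 ≤ j.val → W j = C j) (hP : P W ≠ 0)
    (ι : Fin (k.val + 1) → Fin n)
    (hι : ∀ s : Fin (k.val + 1), W ⟨s.val, by have := s.isLt; have := k.isLt; omega⟩ =
      Pi.single (ι s) 1)
    (c : Fin (k.val + 1) → F) (hc : c ≠ 0) :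
    ¬ Z k.val (Function.update C k (∑ s, c s • (Pi.single (ι s) (1 : F) : Fin n → F))) := by
  intro hZ
  obtain ⟨s0, hs0⟩ : ∃ s, c s ≠ 0 := by
    by_contra h
    push Not at h
    exact hc (funext h)
  let j0 : Fin n := ⟨s0.val, by have := s0.isLt; have := k.isLt; omega⟩
  have hj0 : W j0 = Pi.single (ι s0) 1 := hι s0
  let W1 : Fin n → Fin n → F := fun j => W (Equiv.swap j0 k j)
  have hW1k : W1 k = Pi.single (ι s0) 1 := by
    simp only [W1, Equiv.swap_apply_right]
    exact hj0
  have hP1 : P W1 ≠ 0 := by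
    rw [P_comp W (Equiv.swap j0 k)]
    exact hP
  have hj0k : j0.val ≤ k.val := by
    have := s0.isLt
    simp only [j0]
    omega
  -- the matrix with row `k` replaced
  have h1 := hZ (Function.update W1 k (∑ s, c s • (Pi.single (ι s) (1 : F) : Fin n → F)))
    (fun j hj => by
      by_cases hjk : j = k
      · rw [hjk, Function.update_self, Function.update_self]
      · rw [Function.update_of_ne hjk, Function.update_of_ne hjk]
        have hjk' : j.val ≠ k.val := fun h => hjk (Fin.ext h)
        have hjj : j ≠ j0 := by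
          intro h
          rw [h] at hj hjk'
          omega
        simp only [W1]
        rw [Equiv.swap_apply_of_ne_of_ne hjj hjk]
        exact hW j (by omega))
  have h2 : P (Function.update W1 k (∑ s, c s • (Pi.single (ι s) (1 : F) : Fin n → F))) =
      ∑ s, c s * P (Function.update W1 k (Pi.single (ι s) 1)) := by
    simp only [P]
    rw [MultilinearMap.map_update_sum]
    refine Finset.sum_congr rfl fun s _ => ?_
    rw [MultilinearMap.map_update_smul, smul_eq_mul]
  rw [h2, Finset.sum_eq_single s0] at h1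
  · rw [← hW1k, Function.update_eq_self] at h1
    rcases mul_eq_zero.mp h1 with h3 | h3
    · exact hs0 h3
    · exact hP1 h3
  · intro s _ hs
    -- the unit vector of `s` occurs twice
    have h3 : P (Function.update W1 k (Pi.single (ι s) 1)) = 0 := by
      let js : Fin n := ⟨s.val, by have := s.isLt; have := k.isLt; omega⟩
      have hjs : W js = Pi.single (ι s) 1 := hι s
      have hsj : js ≠ j0 := by
        intro h
        apply hs
        have := congrArg Fin.val h
        exact Fin.ext this
      by_cases hsk : js = k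
      · -- then row `j0` of `W1` is row `k` of `W`
        refine P_eq_zero_of_single _ k j0 (ι s) ?_ (by rw [Function.update_self]) ?_
        · intro h
          exact hsj (hsk.trans h)
        · rw [Function.update_of_ne]
          · simp only [W1, Equiv.swap_apply_left]
            rw [← hsk]
            exact hjs
          · intro h
            exact hsj (hsk.trans h.symm)
      · refine P_eq_zero_of_single _ k js (ι s) (fun h => hsk h.symm)
          (by rw [Function.update_self]) ?_
        rw [Function.update_of_ne hsk]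
        simp only [W1]
        rw [Equiv.swap_apply_of_ne_of_ne hsj hsk]
        exact hjs
    rw [h3, mul_zero]
  · intro h
    exact absurd (Finset.mem_univ _) h

theorem Z_update_sub {n : ℕ} (k : Fin n) (C : Fin n → Fin n → F) (w w' : Fin n → F)
    (h : Z k.val (Function.update C k w)) (h' : Z k.val (Function.update C k w')) :
    Z k.val (Function.update C k (w - w')) := by
  intro W hW
  have hk := hW k le_rfl
  rw [Function.update_self] at hk
  have h1 : W = Function.update W k (w - w') := by rw [← hk, Function.update_eq_self]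
  have h2 : ∀ v, (∀ j : Fin n, k.val ≤ j.val →
      Function.update W k v j = Function.update C k v j) := by
    intro v j hj
    by_cases hjk : j = k
    · rw [hjk, Function.update_self, Function.update_self]
    · have := hW j hj
      rw [Function.update_of_ne hjk] at this ⊢
      rw [Function.update_of_ne hjk, this]
  rw [h1, P_update_sub, h _ (h2 w), h' _ (h2 w'), sub_zero]

open scoped Classical in
theorem card_K_le {n : ℕ} (k : Fin n) (C : Fin n → Fin n → F) (h : ¬ Z (k.val + 1) C) :
    (Finset.univ.filter fun w : Fin n → F => Z k.val (Function.update C k w)).card *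
      Fintype.card F ^ (k.val + 1) ≤ Fintype.card F ^ n := by
  obtain ⟨W, hW, hP, hu⟩ := exists_units k.val C h (k.val + 1) le_rfl
  have hu' : ∀ s : Fin (k.val + 1), ∃ i : Fin n,
      W ⟨s.val, by have := s.isLt; have := k.isLt; omega⟩ = Pi.single i 1 := by
    intro s
    exact hu _ s.isLt
  choose ι hι using hu'
  have h1 : ((Finset.univ.filter fun w : Fin n → F => Z k.val (Function.update C k w)) ×ˢ
      (Finset.univ : Finset (Fin (k.val + 1) → F))).card ≤
      (Finset.univ : Finset (Fin n → F)).card := by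
    refine Finset.card_le_card_of_injOn
      (fun p => p.1 + ∑ s, p.2 s • (Pi.single (ι s) (1 : F) : Fin n → F))
      (fun _ _ => Finset.mem_coe.mpr (Finset.mem_univ _)) ?_
    rintro ⟨w, c⟩ hw ⟨w', c'⟩ hw' heq
    simp only [Finset.coe_product, Set.mem_prod, Finset.mem_coe, Finset.mem_filter,
      Finset.mem_univ, true_and, and_true] at hw hw' heq
    have h2 : w - w' = ∑ s, (c' - c) s • (Pi.single (ι s) (1 : F) : Fin n → F) := by
      have : w - w' = ∑ s, c' s • (Pi.single (ι s) (1 : F) : Fin n → F) -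
          ∑ s, c s • (Pi.single (ι s) (1 : F) : Fin n → F) := by
        rw [sub_eq_sub_iff_add_eq_add, heq]
        abel
      rw [this, ← Finset.sum_sub_distrib]
      refine Finset.sum_congr rfl fun s _ => ?_
      rw [Pi.sub_apply, sub_smul]
    have h3 : c' - c = 0 := by
      by_contra hc
      refine not_Z_of_support k C W hW hP ι hι (c' - c) hc ?_
      rw [← h2]
      exact Z_update_sub k C w w' hw hw'
    have h4 : c = c' := (sub_eq_zero.mp h3).symm
    subst h4
    simp only [sub_self, Pi.zero_apply, zero_smul, Finset.sum_const_zero] at h2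
    rw [sub_eq_zero.mp h2]
  rw [Finset.card_product, Finset.card_univ, Finset.card_univ, Fintype.card_fun,
    Fintype.card_fun, Fintype.card_fin, Fintype.card_fin] at h1
  exact h1

open scoped Classical in
theorem card_K_le' {n : ℕ} (k : Fin n) (C : Fin n → Fin n → F) (h : ¬ Z (k.val + 1) C) :
    ((Finset.univ.filter fun w : Fin n → F => Z k.val (Function.update C k w)).card : ℝ) *
      2 ^ (k.val + 1) ≤ (Fintype.card F : ℝ) ^ n := by
  have h1 := card_K_le k C h
  have h2 : ((Finset.univ.filter fun w : Fin n → F => Z k.val (Function.update C k w)).card : ℝ) *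
      (Fintype.card F : ℝ) ^ (k.val + 1) ≤ (Fintype.card F : ℝ) ^ n := by exact_mod_cast h1
  refine le_trans ?_ h2
  refine mul_le_mul_of_nonneg_left ?_ (Nat.cast_nonneg _)
  exact pow_le_pow_left₀ (by norm_num) two_le_card _

theorem D_nonneg (n k : ℕ) : 0 ≤ D F n k := by
  classical
  exact Finset.sum_nonneg fun C _ => by split_ifs <;> norm_num

theorem D_eq_zero {n k : ℕ} (h : n ≤ k) : D F n k = 0 := by
  classical
  refine Finset.sum_eq_zero fun C _ => ?_
  rw [if_neg]
  exact fun h' => not_Z_of_le h C h'.1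

theorem D_bound (n k : ℕ) : D F n k * 2 ^ (k + 1) ≤ (Fintype.card F : ℝ) ^ (n * n) := by
  classical
  by_cases hk : k < n
  · set q : ℝ := (Fintype.card F : ℝ) with hq
    have hq2 : (2 : ℝ) ≤ q := two_le_card (F := F)
    have hqn : 0 < q ^ n := by positivity
    let k' : Fin n := ⟨k, hk⟩
    have h1 : q ^ n * D F n k = ∑ C : Fin n → Fin n → F, if Z (k + 1) C then 0 else
        ((Finset.univ.filter fun w : Fin n → F => Z k'.val (Function.update C k' w)).card : ℝ) := by
      rw [D, ← sum_update k']
      refine Finset.sum_congr rfl fun C _ => ?_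
      have h3 : ∀ w : Fin n → F, Z (k + 1) (Function.update C k' w) ↔ Z (k + 1) C := by
        intro w
        refine Z_congr fun j hj => ?_
        rw [Function.update_of_ne]
        intro h
        rw [h] at hj
        simp only [k'] at hj
        omega
      split_ifs with hC
      · refine Finset.sum_eq_zero fun w _ => ?_
        rw [h3, if_neg (fun h => h.2 hC)]
      · rw [Finset.card_filter, Nat.cast_sum]
        refine Finset.sum_congr rfl fun w _ => ?_
        rw [h3]
        by_cases hw : Z k (Function.update C k' w)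
        · rw [if_pos ⟨hw, hC⟩, if_pos hw, Nat.cast_one]
        · rw [if_neg (fun h => hw h.1), if_neg hw, Nat.cast_zero]
    have h2 : q ^ n * D F n k * 2 ^ (k + 1) ≤ q ^ n * q ^ (n * n) := by
      rw [h1, Finset.sum_mul]
      calc ∑ C : Fin n → Fin n → F, (if Z (k + 1) C then 0 else
          ((Finset.univ.filter fun w : Fin n → F =>
            Z k'.val (Function.update C k' w)).card : ℝ)) * 2 ^ (k + 1)
          ≤ ∑ _C : Fin n → Fin n → F, q ^ n := by
            refine Finset.sum_le_sum fun C _ => ?_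
            split_ifs with hC
            · rw [zero_mul]
              positivity
            · exact card_K_le' k' C hC
        _ = q ^ n * q ^ (n * n) := by
            rw [Finset.sum_const, Finset.card_univ, nsmul_eq_mul, card_mat, mul_comm]
    rw [mul_assoc] at h2
    exact le_of_mul_le_mul_left h2 hqn
  · rw [D_eq_zero (by omega), zero_mul]
    positivity

theorem D_chain (n k : ℕ) : D F n (k + 1) ≤ 2 * D F n k := by
  classical
  by_cases hk : k + 1 < n
  · set q : ℝ := (Fintype.card F : ℝ) with hq
    have hq2 : (2 : ℝ) ≤ q := two_le_card (F := F)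
    have hqn : 0 < q ^ n := by positivity
    let k0 : Fin n := ⟨k, by omega⟩
    let k1 : Fin n := ⟨k + 1, hk⟩
    have h01 : k0 ≠ k1 := by
      intro h
      have := congrArg Fin.val h
      simp [k0, k1] at this
    let e : (Fin n → Fin n → F) × (Fin n → F) ≃ (Fin n → Fin n → F) × (Fin n → F) :=
      { toFun := fun p => (Function.update (Function.update p.1 k0 (p.1 k1)) k1 p.2, p.1 k0)
        invFun := fun p => (Function.update (Function.update p.1 k0 p.2) k1 (p.1 k0), p.1 k1)
        left_inv := fun p => by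
          rcases p with ⟨C, w⟩
          refine Prod.ext ?_ ?_
          · funext j
            by_cases h1 : j = k1
            · subst h1
              simp [Function.update_of_ne h01]
            · by_cases h0 : j = k0
              · subst h0
                simp [Function.update_of_ne h1]
              · simp [Function.update_of_ne h1, Function.update_of_ne h0]
          · simp
        right_inv := fun p => by
          rcases p with ⟨C, w⟩
          refine Prod.ext ?_ ?_
          · funext j
            by_cases h1 : j = k1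
            · subst h1
              simp
            · by_cases h0 : j = k0
              · subst h0
                simp [Function.update_of_ne h1]
              · simp [Function.update_of_ne h1, Function.update_of_ne h0]
          · simp [Function.update_of_ne h01] }
    let g : (Fin n → Fin n → F) → ℝ := fun C => if Z k C ∧ ¬ Z (k + 1) C then 1 else 0
    let f : (Fin n → Fin n → F) × (Fin n → F) → ℝ := fun p =>
      if Z (k + 1) p.1 ∧ ¬ Z (k + 2) p.1 then
        (if Z (k + 1) (Function.update p.1 k1 p.2) then 0 else 1) else 0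
    have hfg : ∀ p, f p ≤ g (e p).1 := by
      rintro ⟨C, w⟩
      simp only [f]
      have hg0 : ∀ C', 0 ≤ g C' := fun C' => by simp only [g]; split_ifs <;> norm_num
      split_ifs with h1 h2
      · exact hg0 _
      · have h3 : Z k (e (C, w)).1 := by
          intro W hW
          rw [← P_comp W (Equiv.swap k0 k1)]
          refine h1.1 _ fun j hj => ?_
          by_cases hj1 : j = k1
          · rw [hj1, Equiv.swap_apply_right, hW k0 (by simp [k0])]
            simp [e, Function.update_of_ne h01]
          · have hj0 : j ≠ k0 := by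
              intro h
              rw [h] at hj
              simp only [k0] at hj
              omega
            rw [Equiv.swap_apply_of_ne_of_ne hj0 hj1, hW j (by omega)]
            simp [e, Function.update_of_ne hj1, Function.update_of_ne hj0]
        have h4 : ¬ Z (k + 1) (e (C, w)).1 := by
          intro h5
          apply h2
          refine (Z_congr fun j hj => ?_).mp h5
          by_cases hj1 : j = k1
          · rw [hj1]
            simp [e]
          · have hj0 : j ≠ k0 := by
              intro h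
              rw [h] at hj
              simp only [k0] at hj
              omega
            simp [e, Function.update_of_ne hj1, Function.update_of_ne hj0]
        simp only [g]
        rw [if_pos ⟨h3, h4⟩]
      · exact hg0 _
    have h1 : ∑ p, f p ≤ q ^ n * D F n k := by
      calc ∑ p, f p ≤ ∑ p, g (e p).1 := Finset.sum_le_sum fun p _ => hfg p
        _ = ∑ p : (Fin n → Fin n → F) × (Fin n → F), g p.1 := Equiv.sum_comp e (fun p => g p.1)
        _ = q ^ n * D F n k := by
            rw [Fintype.sum_prod_type]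
            simp only [Finset.sum_const, Finset.card_univ, Fintype.card_fun, Fintype.card_fin,
              nsmul_eq_mul, Nat.cast_pow]
            rw [← Finset.mul_sum]
            rfl
    have h2 : q ^ n * D F n (k + 1) ≤ 2 * ∑ p, f p := by
      rw [Fintype.sum_prod_type, D, Finset.mul_sum, Finset.mul_sum]
      refine Finset.sum_le_sum fun C _ => ?_
      simp only [f]
      by_cases hC : Z (k + 1) C ∧ ¬ Z (k + 2) C
      · rw [if_pos hC]
        simp only [if_pos hC]
        have h3 := card_K_le' k1 C hC.2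
        have h4 : ((Finset.univ.filter fun w : Fin n → F =>
            Z k1.val (Function.update C k1 w)).card : ℝ) * 2 ≤ q ^ n := by
          refine le_trans (mul_le_mul_of_nonneg_left ?_ (Nat.cast_nonneg _)) h3
          calc (2 : ℝ) = 2 ^ 1 := by norm_num
            _ ≤ 2 ^ (k1.val + 1) := pow_le_pow_right₀ (by norm_num) (by omega)
        have h5 : ∑ w : Fin n → F, (if Z (k + 1) (Function.update C k1 w) then (0 : ℝ) else 1) =
            q ^ n - ((Finset.univ.filter fun w : Fin n → F =>
            Z k1.val (Function.update C k1 w)).card : ℝ) := by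
          have h6 : ∀ w : Fin n → F, (if Z (k + 1) (Function.update C k1 w) then (0 : ℝ) else 1) =
              1 - (if Z (k + 1) (Function.update C k1 w) then (1 : ℝ) else 0) := by
            intro w
            split_ifs <;> norm_num
          rw [Finset.sum_congr rfl fun w _ => h6 w, Finset.sum_sub_distrib]
          congr 1
          · simp [hq]
          · rw [← Finset.sum_filter, Finset.sum_const, nsmul_eq_mul, mul_one]
        rw [h5]
        linarith
      · rw [if_neg (by exact hC)]
        simp only [if_neg hC]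
        simp
    have h3 : q ^ n * D F n (k + 1) ≤ q ^ n * (2 * D F n k) := by
      calc q ^ n * D F n (k + 1) ≤ 2 * ∑ p, f p := h2
        _ ≤ 2 * (q ^ n * D F n k) := mul_le_mul_of_nonneg_left h1 (by norm_num)
        _ = q ^ n * (2 * D F n k) := by ring
    exact le_of_mul_le_mul_left h3 hqn
  · rw [D_eq_zero (by omega)]
    have := D_nonneg (F := F) n k
    linarith

/-! ### Probabilities -/

theorem p_nonneg (n k : ℕ) : 0 ≤ p F n k := by
  unfold p
  positivity

theorem p_le_one (n k : ℕ) : p F n k ≤ 1 := by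
  classical
  have hq2 : (2 : ℝ) ≤ Fintype.card F := two_le_card (F := F)
  unfold p
  rw [div_le_one (by positivity), ← card_mat (F := F) n]
  exact_mod_cast Finset.card_le_univ _

theorem p_sub (n k : ℕ) : p F n k - p F n (k + 1) = D F n k / (Fintype.card F : ℝ) ^ (n * n) := by
  have hq2 : (2 : ℝ) ≤ Fintype.card F := two_le_card (F := F)
  rw [D_eq_p]
  field_simp

theorem p_eq_zero {n k : ℕ} (h : n ≤ k) : p F n k = 0 := by
  classical
  have : N F n k = 0 := by
    unfold N
    rw [Finset.card_eq_zero, Finset.filter_eq_empty_iff]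
    intro C _
    exact not_Z_of_le h C
  rw [p, this]
  simp

theorem p_step (n k : ℕ) : p F n k ≤ p F n (k + 1) + (1 / 2) ^ (k + 1) := by
  have hq2 : (2 : ℝ) ≤ Fintype.card F := two_le_card (F := F)
  have h1 := p_sub (F := F) n k
  have h2 := D_bound (F := F) n k
  have h3 : D F n k / (Fintype.card F : ℝ) ^ (n * n) ≤ (1 / 2) ^ (k + 1) := by
    rw [div_le_iff₀ (by positivity), one_div, inv_pow, inv_mul_eq_div,
      le_div_iff₀ (by positivity)]
    exact h2
  linarith

theorem p_le_aux (d : ℕ) : ∀ n k : ℕ, n ≤ k + d → p F n k ≤ (1 / 2) ^ k := by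
  induction d with
  | zero =>
    intro n k h
    rw [p_eq_zero (by omega)]
    positivity
  | succ d ih =>
    intro n k h
    have h1 := ih n (k + 1) (by omega)
    have h2 := p_step (F := F) n k
    have h3 : ((1 : ℝ) / 2) ^ (k + 1) + (1 / 2) ^ (k + 1) = (1 / 2) ^ k := by
      rw [pow_succ]; ring
    linarith

theorem p_le (n k : ℕ) : p F n k ≤ (1 / 2) ^ k := p_le_aux n n k (by omega)

theorem p_chain (n k : ℕ) :
    p F n (k + 1) - p F n (k + 2) ≤ 2 * (p F n k - p F n (k + 1)) := by
  have hq2 : (2 : ℝ) ≤ Fintype.card F := two_le_card (F := F)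
  rw [p_sub, p_sub, ← mul_div_assoc]
  exact div_le_div_of_nonneg_right (D_chain n k) (by positivity)

theorem p_chain' (n k : ℕ) :
    p F n (k + 1) - p F n (k + 2) ≤ 2 ^ k * (p F n 1 - p F n 2) := by
  induction k with
  | zero => simp
  | succ k ih =>
    have h := p_chain (F := F) n (k + 1)
    calc p F n (k + 1 + 1) - p F n (k + 1 + 2) ≤ 2 * (p F n (k + 1) - p F n (k + 2)) := h
      _ ≤ 2 * (2 ^ k * (p F n 1 - p F n 2)) := by linarith
      _ = 2 ^ (k + 1) * (p F n 1 - p F n 2) := by ring

theorem p_one_le (n K : ℕ) : p F n 1 ≤ (1 / 2) ^ (K + 1) + 2 ^ K * (p F n 1 - p F n 2) := by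
  have h1 : ∀ K : ℕ, p F n 1 - p F n (K + 1) ≤ (2 ^ K - 1) * (p F n 1 - p F n 2) := by
    intro K
    induction K with
    | zero => simp
    | succ K ih =>
      have h := p_chain' (F := F) n K
      calc p F n 1 - p F n (K + 1 + 1) = (p F n 1 - p F n (K + 1)) +
            (p F n (K + 1) - p F n (K + 2)) := by ring
        _ ≤ (2 ^ K - 1) * (p F n 1 - p F n 2) + 2 ^ K * (p F n 1 - p F n 2) := by linarith
        _ = (2 ^ (K + 1) - 1) * (p F n 1 - p F n 2) := by ring
  have h2 := h1 K
  have h3 := p_le (F := F) n (K + 1)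
  have h4 : 0 ≤ p F n 1 - p F n 2 := by
    have hq2 : (2 : ℝ) ≤ Fintype.card F := two_le_card (F := F)
    rw [p_sub]
    exact div_nonneg (D_nonneg _ _) (by positivity)
  linarith

/-- the probability that the permanent is zero -/
theorem p_zero (m : ℕ) : (Fintype.card F : ℝ) * p F (m + 1) 0 =
    1 + ((Fintype.card F : ℝ) - 1) * p F (m + 1) 1 := by
  classical
  set q : ℝ := (Fintype.card F : ℝ) with hq
  have hq2 : (2 : ℝ) ≤ q := two_le_card (F := F)
  set n := m + 1 with hn
  have h1 : ∑ C : Fin n → Fin n → F, chi (P C) = q * N F n 0 - q ^ (n * n) := by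
    have h2 : ∀ C : Fin n → Fin n → F, chi (P C) = q * (if Z 0 C then 1 else 0) - 1 := by
      intro C
      unfold chi
      by_cases h : P C = 0
      · rw [if_pos h, if_pos ((Z_zero C).mpr h)]
        ring
      · rw [if_neg h, if_neg (fun h' => h ((Z_zero C).mp h'))]
        ring
    rw [Finset.sum_congr rfl fun C _ => h2 C, Finset.sum_sub_distrib, ← Finset.mul_sum]
    congr 1
    · congr 1
      rw [← Finset.sum_filter, Finset.sum_const, nsmul_eq_mul, mul_one]
      rfl
    · rw [Finset.sum_const, Finset.card_univ, nsmul_eq_mul, mul_one, card_mat]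
  have h3 : q ^ n * ∑ C : Fin n → Fin n → F, chi (P C) = N F n 1 * (q ^ n * (q - 1)) := by
    rw [← sum_update 0]
    have h4 : ∀ C : Fin n → Fin n → F, ∑ w : Fin n → F, chi (P (Function.update C 0 w)) =
        if Z 1 C then q ^ n * (q - 1) else 0 := by
      intro C
      have h5 : ∀ w : Fin n → F, chi (P (Function.update C 0 w)) = chi (dot w (T C)) := by
        intro w
        rw [P_update_T]
      rw [Finset.sum_congr rfl fun w _ => h5 w]
      split_ifs with h
      · rw [Z_one_iff] at h
        rw [h]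
        simp [dot, chi_zero, hq]
        ring
      · rw [Z_one_iff] at h
        exact sum_chi_dot _ h
    rw [Finset.sum_congr rfl fun C _ => h4 C, ← Finset.sum_filter, Finset.sum_const,
      nsmul_eq_mul]
    rfl
  have hqn : 0 < q ^ n := by positivity
  have hqnn : 0 < q ^ (n * n) := by positivity
  have h6 : ∑ C : Fin n → Fin n → F, chi (P C) = N F n 1 * (q - 1) := by
    apply mul_left_cancel₀ hqn.ne'
    rw [h3]
    ring
  rw [h1, N_eq, N_eq] at h6
  apply mul_left_cancel₀ hqnn.ne'
  rw [← hq] at h6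
  linarith

/-! ### The limit -/

theorem tendsto_aux (a : ℕ → ℝ) (b : ℕ → ℝ) (h0 : ∀ n, 0 ≤ a n) (h1 : ∀ n, a n ≤ 1)
    (_hb : ∀ n, 0 ≤ b n)
    (hs : ∀ m : ℕ, b (m + 2) ^ 2 ≤ a (m + 1) - a (m + 2) + 1 / ((m : ℝ) + 2))
    (hK : ∀ n K : ℕ, a n ≤ (1 / 2) ^ (K + 1) + 2 ^ K * b n) :
    Filter.Tendsto a Filter.atTop (nhds 0) := by
  -- the limit superior
  have hbdd : Filter.IsBoundedUnder (· ≤ ·) Filter.atTop a :=
    Filter.isBoundedUnder_of ⟨1, fun n => h1 n⟩
  have hcobdd : Filter.IsCoboundedUnder (· ≤ ·) Filter.atTop a :=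
    Filter.IsCoboundedUnder.of_frequently_ge (a := 0)
      (Filter.Frequently.of_forall fun n => h0 n)
  set L := Filter.limsup a Filter.atTop with hL
  have hL0 : L ≤ 0 := by
    by_contra hpos
    push Not at hpos
    -- choose K
    obtain ⟨K, hKK⟩ : ∃ K : ℕ, ((1 : ℝ) / 2) ^ (K + 1) < L / 4 := by
      obtain ⟨K, hK1⟩ := exists_pow_lt_of_lt_one (show 0 < L / 4 by positivity)
        (show (1 : ℝ) / 2 < 1 by norm_num)
      refine ⟨K, lt_of_le_of_lt ?_ hK1⟩
      exact pow_le_pow_of_le_one (by norm_num) (by norm_num) (Nat.le_succ K)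
    -- choose δ
    obtain ⟨δ, hδ0, hδ1, hδ2⟩ : ∃ δ : ℝ, 0 < δ ∧ δ ≤ L / 4 ∧ (2 ^ K : ℝ) ^ 2 * (3 * δ) <
        (L / 4) ^ 2 := by
      refine ⟨min (L / 4) ((L / 4) ^ 2 / (4 * (2 ^ K : ℝ) ^ 2)), ?_, min_le_left _ _, ?_⟩
      · exact lt_min (by positivity) (by positivity)
      · have h2 : (0 : ℝ) < (2 ^ K : ℝ) ^ 2 := by positivity
        calc (2 ^ K : ℝ) ^ 2 * (3 * min (L / 4) ((L / 4) ^ 2 / (4 * (2 ^ K : ℝ) ^ 2)))
            ≤ (2 ^ K : ℝ) ^ 2 * (3 * ((L / 4) ^ 2 / (4 * (2 ^ K : ℝ) ^ 2))) := by
              gcongr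
              exact min_le_right _ _
          _ = 3 / 4 * (L / 4) ^ 2 := by field_simp
          _ < (L / 4) ^ 2 := by
              have : 0 < (L / 4) ^ 2 := by positivity
              linarith
    have hev : ∀ᶠ n in Filter.atTop, a n < L + δ :=
      Filter.eventually_lt_of_limsup_lt (by rw [← hL]; linarith) hbdd
    have hfr : ∃ᶠ n in Filter.atTop, L - δ < a n :=
      Filter.frequently_lt_of_lt_limsup hcobdd (by rw [← hL]; linarith)
    obtain ⟨N0, hN0⟩ := Filter.eventually_atTop.mp hev
    obtain ⟨N1, hN1⟩ := exists_nat_gt (1 / δ)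
    obtain ⟨n, hn, han⟩ := Filter.frequently_atTop.mp hfr (N0 + N1 + 2)
    obtain ⟨m, rfl⟩ : ∃ m, n = m + 2 := ⟨n - 2, by omega⟩
    have h3 := hs m
    have h4 := hN0 (m + 1) (by omega)
    have h5 : 1 / ((m : ℝ) + 2) < δ := by
      rw [div_lt_iff₀ (by positivity)]
      rw [div_lt_iff₀ hδ0] at hN1
      have : (N1 : ℝ) ≤ (m : ℝ) + 2 := by
        have : N1 ≤ m + 2 := by omega
        exact_mod_cast this
      nlinarith
    have h6 : b (m + 2) ^ 2 < 3 * δ := by linarith
    have h7 := hK (m + 2) K
    have h8 : (2 ^ K * b (m + 2)) ^ 2 < (L / 4) ^ 2 := by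
      calc (2 ^ K * b (m + 2)) ^ 2 = (2 ^ K : ℝ) ^ 2 * b (m + 2) ^ 2 := by ring
        _ ≤ (2 ^ K : ℝ) ^ 2 * (3 * δ) := by gcongr
        _ < (L / 4) ^ 2 := hδ2
    have h9 : 2 ^ K * b (m + 2) < L / 4 := lt_of_pow_lt_pow_left₀ 2 (by positivity) h8
    linarith
  rw [Metric.tendsto_atTop]
  intro ε hε
  have hev : ∀ᶠ n in Filter.atTop, a n < ε :=
    Filter.eventually_lt_of_limsup_lt (by rw [← hL]; linarith) hbdd
  obtain ⟨N0, hN0⟩ := Filter.eventually_atTop.mp hev
  refine ⟨N0, fun n hn => ?_⟩
  rw [Real.dist_eq, sub_zero, abs_of_nonneg (h0 n)]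
  exact hN0 n hn

theorem tendsto_p_one (h2 : (2 : F) ≠ 0) :
    Filter.Tendsto (fun n => p F n 1) Filter.atTop (nhds 0) := by
  refine tendsto_aux (fun n => p F n 1) (fun n => p F n 1 - p F n 2) (fun n => p_nonneg n 1)
    (fun n => p_le_one n 1) (fun n => ?_) (fun m => main_ineq h2) (fun n K => p_one_le n K)
  have hq2 : (2 : ℝ) ≤ Fintype.card F := two_le_card (F := F)
  rw [p_sub]
  exact div_nonneg (D_nonneg _ _) (by positivity)

theorem tendsto_p_zero (h2 : (2 : F) ≠ 0) :
    Filter.Tendsto (fun n => p F n 0) Filter.atTop (nhds (1 / (Fintype.card F : ℝ))) := by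
  have hq2 : (2 : ℝ) ≤ Fintype.card F := two_le_card (F := F)
  have h1 := tendsto_p_one (F := F) h2
  have h3 : Filter.Tendsto (fun n => (1 + ((Fintype.card F : ℝ) - 1) * p F n 1) /
      (Fintype.card F : ℝ)) Filter.atTop (nhds ((1 + ((Fintype.card F : ℝ) - 1) * 0) /
      (Fintype.card F : ℝ))) := ((h1.const_mul _).const_add _).div_const _
  rw [mul_zero, add_zero] at h3
  refine h3.congr' ?_
  filter_upwards [Filter.eventually_ge_atTop 1] with n hn
  obtain ⟨m, rfl⟩ : ∃ m, n = m + 1 := ⟨n - 1, by omega⟩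
  rw [← p_zero]
  field_simp

theorem p_zero_eq (n : ℕ) : p F n 0 =
    (Nat.card {A : Matrix (Fin n) (Fin n) F // A.permanent = 0} : ℝ) /
      (Nat.card (Matrix (Fin n) (Fin n) F) : ℝ) := by
  classical
  unfold p
  congr 1
  · rw [Nat.card_eq_fintype_card, Fintype.card_subtype]
    unfold N
    congr 1
    refine Finset.card_bij (fun C _ => Matrix.of C) ?_ ?_ ?_
    · intro C hC
      simp only [Finset.mem_filter, Finset.mem_univ, true_and] at hC ⊢
      rw [← P_eq_permanent]
      exact (Z_zero C).mp hC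
    · intro C _ C' _ h
      exact Matrix.of.injective h
    · intro A hA
      simp only [Finset.mem_filter, Finset.mem_univ, true_and] at hA
      refine ⟨fun i j => A i j, ?_, rfl⟩
      simp only [Finset.mem_filter, Finset.mem_univ, true_and]
      rw [Z_zero, P_eq_permanent]
      exact hA
  · rw [← card_mat, Nat.card_eq_fintype_card]
    rfl

end fin

/-- `2 ≠ 0` in a field of odd order -/
theorem two_ne_zero_of_odd (F : Type) [Field F] [Fintype F] (h : Odd (Fintype.card F)) :
    (2 : F) ≠ 0 := by
  intro h2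
  have h3 : ringChar F = 2 := by
    have h4 : ringChar F ∣ 2 := by
      rw [← ringChar.spec]
      exact_mod_cast h2
    rcases (Nat.dvd_prime Nat.prime_two).mp h4 with h5 | h5
    · exact absurd h5 (CharP.char_ne_one F (ringChar F))
    · exact h5
  have h5 := FiniteField.even_card_of_char_two h3
  rw [Nat.odd_iff] at h
  omega

end Pool.Agent.L5helper40.PermFq
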